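import Pool.Agent.H130R2.TU.Inv

set_option autoImplicit false
set_option linter.unusedSectionVars false

namespace Pool.Agent.H130R2.TU

open Finset Pool.Agent.Helper46.T

variable {n s : ℕ}

theorem perm_sum (m : ℕ) (a b : ℝ) (ha : 0 ≤ a) (hb : 0 ≤ b) :
    ∑ π : Equiv.Perm (Fin m), ∏ i, (if π i = i then a else b) ≤ (a + m * b) ^ m := by
  classical
  have h1 : ∑ π : Equiv.Perm (Fin m), ∏ i, (if π i = i then a else b) =
      ∑ f ∈ Finset.image (fun (π : Equiv.Perm (Fin m)) (i : Fin m) => π i) univ,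
        ∏ i, (if f i = i then a else b) := by
    rw [sum_image]
    intro x _ y _ hxy
    exact DFunLike.coe_injective hxy
  rw [h1]
  have h2 : ∑ f ∈ Finset.image (fun (π : Equiv.Perm (Fin m)) (i : Fin m) => π i) univ,
        ∏ i, (if f i = i then a else b) ≤
      ∑ f : Fin m → Fin m, ∏ i, (if f i = i then a else b) := by
    apply sum_le_sum_of_subset_of_nonneg (subset_univ _)
    intro f _ _
    apply prod_nonneg
    intro i _
    split_ifs <;> assumption
  refine h2.trans ?_
  have h3 : ∑ f : Fin m → Fin m, ∏ i, (if f i = i then a else b) =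
      ∏ i : Fin m, ∑ j : Fin m, (if j = i then a else b) := by
    rw [prod_univ_sum, Fintype.piFinset_univ]
  rw [h3]
  have h4 : ∀ i : Fin m, ∑ j : Fin m, (if j = i then a else b) ≤ a + m * b := by
    intro i
    rw [← add_sum_erase _ _ (mem_univ i), if_pos rfl]
    apply add_le_add_right
    have h5 : ∀ j ∈ (univ : Finset (Fin m)).erase i, (if j = i then a else b) = b := by
      intro j hj
      rw [if_neg (mem_erase.1 hj).1]
    rw [sum_congr rfl h5, sum_const, nsmul_eq_mul]
    apply mul_le_mul_of_nonneg_right _ hb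
    have : ((univ : Finset (Fin m)).erase i).card ≤ m := by
      refine (card_erase_le).trans ?_
      rw [card_univ, Fintype.card_fin]
    exact_mod_cast this
  calc ∏ i : Fin m, ∑ j : Fin m, (if j = i then a else b) ≤ ∏ _i : Fin m, (a + m * b) := by
        apply prod_le_prod
        · intro i _
          apply sum_nonneg
          intro j _
          split_ifs <;> assumption
        · intro i _
          exact h4 i
    _ = _ := by rw [prod_const, card_univ, Fintype.card_fin]

theorem fx_card (hs : s ≤ n) (σ : Equiv.Perm (Fin n)) (π : Equiv.Perm (Fin s))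
    (ρ : Fin s → ℕ) :
    (Fx n s (σ, π)).card ≤ ∏ i, (if ρ (π⁻¹ i) < ρ i then 1 else
      if π⁻¹ i = i then (inv (n - s) σ).card else FF n (n - s)) := by
  classical
  have h1 : (Fintype.piFinset (fun i : Fin s => if ρ (π⁻¹ i) < ρ i then
      ({∅} : Finset (Finset (Fin n))) else
      if π⁻¹ i = i then inv (n - s) σ else smalls (n - s) univ)).card =
      ∏ i, (if ρ (π⁻¹ i) < ρ i then 1 else
      if π⁻¹ i = i then (inv (n - s) σ).card else FF n (n - s)) := by
    rw [Fintype.card_piFinset]
    apply prod_congr rfl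
    intro i _
    split_ifs
    · exact card_singleton _
    · rfl
    · rw [card_smalls, card_univ, Fintype.card_fin]
  rw [← h1]
  have hfx : ∀ A ∈ Fx n s (σ, π), (∀ i, (A i).card + s ≤ n) ∧
      ∀ i, (A (π⁻¹ i)).map σ.toEmbedding = A i := by
    intro A hA
    unfold Fx AL at hA
    rw [mem_filter, mem_filter] at hA
    exact ⟨hA.1.2, fun i => congrFun hA.2 i⟩
  apply card_le_card_of_injOn (fun A i => if ρ (π⁻¹ i) < ρ i then ∅ else A i)
  · intro A hA
    obtain ⟨hA1, hA2⟩ := hfx A hA
    rw [mem_coe, Fintype.mem_piFinset]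
    intro i
    simp only
    have h3 := hA1 i
    split_ifs with h4 h5
    · exact mem_singleton_self _
    · rw [mem_inv]
      refine ⟨by omega, ?_⟩
      have := hA2 i
      rwa [h5] at this
    · unfold smalls
      rw [mem_filter, mem_powerset]
      exact ⟨subset_univ _, by omega⟩
  · intro A hA B hB hAB
    obtain ⟨-, hA2⟩ := hfx A hA
    obtain ⟨-, hB2⟩ := hfx B hB
    simp only at hAB
    have key : ∀ N, ∀ i, ρ i = N → A i = B i := by
      intro N
      induction N using Nat.strong_induction_on with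
      | _ N ih =>
        intro i hi
        by_cases h : ρ (π⁻¹ i) < ρ i
        · rw [← hA2 i, ← hB2 i, ih _ (hi ▸ h) _ rfl]
        · have h2 := congrFun hAB i
          rw [if_neg h, if_neg h] at h2
          exact h2
    funext i
    exact key _ i rfl

theorem fx_real (hs : s ≤ n) (σ : Equiv.Perm (Fin n)) (π : Equiv.Perm (Fin s)) (w : ℝ)
    (hw0 : 0 ≤ w) (hw : w * w = (FF n (n - s) : ℝ)) :
    ((Fx n s (σ, π)).card : ℝ) ≤
      ∏ i, (if π⁻¹ i = i then ((inv (n - s) σ).card : ℝ) else w) := by
  set f : ℝ := ((inv (n - s) σ).card : ℝ) with hf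
  have hf0 : 0 ≤ f := Nat.cast_nonneg _
  have h1 := fx_card hs σ π (fun i => (i : ℕ))
  have h2 := fx_card hs σ π (fun i => s - (i : ℕ))
  have h1' : ((Fx n s (σ, π)).card : ℝ) ≤ ∏ i : Fin s,
      (if ((π⁻¹ i : Fin s) : ℕ) < (i : ℕ) then 1 else if π⁻¹ i = i then f else w * w) := by
    rw [hw]
    refine (Nat.cast_le.2 h1).trans (le_of_eq ?_)
    push_cast
    rfl
  have h2' : ((Fx n s (σ, π)).card : ℝ) ≤ ∏ i : Fin s,
      (if s - ((π⁻¹ i : Fin s) : ℕ) < s - (i : ℕ) then 1 else
        if π⁻¹ i = i then f else w * w) := by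
    rw [hw]
    refine (Nat.cast_le.2 h2).trans (le_of_eq ?_)
    push_cast
    rfl
  have h3 : ((Fx n s (σ, π)).card : ℝ) * ((Fx n s (σ, π)).card : ℝ) ≤
      (∏ i, (if π⁻¹ i = i then f else w)) * (∏ i, (if π⁻¹ i = i then f else w)) := by
    refine (mul_le_mul h1' h2' (Nat.cast_nonneg _) ?_).trans (le_of_eq ?_)
    · apply prod_nonneg
      intro i _
      split_ifs
      · norm_num
      · exact hf0
      · positivity
    · rw [← prod_mul_distrib, ← prod_mul_distrib]
      apply prod_congr rfl
      intro i _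
      by_cases h : π⁻¹ i = i
      · rw [if_pos h, if_pos h, h, if_neg (lt_irrefl _), if_neg (lt_irrefl _)]
      · rw [if_neg h, if_neg h]
        have hne : ((π⁻¹ i : Fin s) : ℕ) ≠ (i : ℕ) := fun h' => h (Fin.ext h')
        have e1 := (π⁻¹ i : Fin s).2
        have e2 := i.2
        rcases Nat.lt_or_gt_of_ne hne with h' | h'
        · rw [if_pos h', if_neg (by omega), one_mul]
        · rw [if_neg (by omega), if_pos (by omega), mul_one]
  exact abs_le_of_sq_le_sq' (by nlinarith) (by
    apply prod_nonneg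
    intro i _
    split_ifs <;> assumption) |>.2

theorem sum_fx (hs : s ≤ n) (σ : Equiv.Perm (Fin n)) (w : ℝ)
    (hw0 : 0 ≤ w) (hw : w * w = (FF n (n - s) : ℝ)) :
    ∑ π : Equiv.Perm (Fin s), ((Fx n s (σ, π)).card : ℝ) ≤
      (((inv (n - s) σ).card : ℝ) + s * w) ^ s := by
  refine (sum_le_sum (fun π _ => fx_real hs σ π w hw0 hw)).trans ?_
  have h1 : ∑ π : Equiv.Perm (Fin s),
      ∏ i, (if π⁻¹ i = i then ((inv (n - s) σ).card : ℝ) else w) =
      ∑ π : Equiv.Perm (Fin s),
      ∏ i, (if π i = i then ((inv (n - s) σ).card : ℝ) else w) :=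
    Equiv.sum_comp (Equiv.inv (Equiv.Perm (Fin s)))
      (fun π => ∏ i, (if π i = i then ((inv (n - s) σ).card : ℝ) else w))
  rw [h1]
  exact perm_sum s _ w (Nat.cast_nonneg _) hw0

end Pool.Agent.H130R2.TU
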