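import Pool.Agent.H130R2.TU.Orb

set_option autoImplicit false
set_option linter.unusedSectionVars false

namespace Pool.Agent.H130R2.TU

open Finset Pool.Agent.Helper46.T

variable {n s : ℕ}

/-- Small sets respecting the pairs `(a, σ a)`, `a ∈ R`. -/
def SR (m : ℕ) (σ : Equiv.Perm (Fin n)) (R : Finset (Fin n)) : Finset (Finset (Fin n)) :=
  (smalls m univ).filter (fun X => ∀ a ∈ R, (a ∈ X ↔ σ a ∈ X))

theorem mem_SR (m : ℕ) (σ : Equiv.Perm (Fin n)) (R : Finset (Fin n)) (X : Finset (Fin n)) :
    X ∈ SR m σ R ↔ X.card ≤ m ∧ ∀ a ∈ R, (a ∈ X ↔ σ a ∈ X) := by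
  unfold SR smalls
  rw [mem_filter, mem_filter, mem_powerset]
  simp

/-- One pair costs a constant factor. -/
theorem SR_step (m : ℕ) (σ : Equiv.Perm (Fin n)) (R : Finset (Fin n)) (a : Fin n)
    (ha : a ∉ R) (ha' : a ∉ R.map σ.toEmbedding) (hb : σ a ∉ R) (hab : σ a ≠ a)
    (hR : 4 * (R.card + 1) ≤ m) (hm : n ≤ 7 * m) :
    17 * (SR m σ (insert a R)).card ≤ 16 * (SR m σ R).card := by
  classical
  set b := σ a with hbdef
  have hb' : b ∉ R.map σ.toEmbedding := by
    intro h
    rw [mem_map] at h
    obtain ⟨c, hc, hcb⟩ := h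
    have : c = a := σ.injective hcb
    exact ha (this ▸ hc)
  set S := SR m σ R with hS
  set S10 := S.filter (fun X => a ∈ X ∧ b ∉ X) with hS10
  set S11 := S.filter (fun X => a ∈ X ∧ b ∈ X) with hS11
  set S0l := S.filter (fun X => (a ∉ X ∧ b ∉ X) ∧ X.card < m) with hS0l
  set S0e := S.filter (fun X => (a ∉ X ∧ b ∉ X) ∧ X.card = m) with hS0e
  -- membership after changing at a or b
  have hne : ∀ c ∈ R, c ≠ a ∧ c ≠ b ∧ σ c ≠ a ∧ σ c ≠ b := by
    intro c hc
    refine ⟨fun h => ha (h ▸ hc), fun h => hb (h ▸ hc), ?_, ?_⟩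
    · intro h
      exact ha' (h ▸ mem_map_of_mem _ hc)
    · intro h
      exact hb' (h ▸ mem_map_of_mem _ hc)
  have h11 : S11.card ≤ S10.card := by
    apply card_le_card_of_injOn (fun X => X.erase b)
    · intro X hX
      rw [mem_coe, hS11, mem_filter, hS, mem_SR] at hX
      rw [mem_coe, hS10, mem_filter, hS, mem_SR]
      obtain ⟨⟨h1, h2⟩, h3, h4⟩ := hX
      refine ⟨⟨(card_erase_le).trans h1, ?_⟩, ?_, ?_⟩
      · intro c hc
        obtain ⟨e1, e2, e3, e4⟩ := hne c hc
        rw [mem_erase, mem_erase]
        have := h2 c hc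
        tauto
      · rw [mem_erase]
        exact ⟨hab.symm, h3⟩
      · exact notMem_erase _ _
    · intro X hX Y hY hXY
      rw [mem_coe, hS11, mem_filter] at hX hY
      simp only at hXY
      rw [← insert_erase hX.2.2, hXY, insert_erase hY.2.2]
  have h0l : S0l.card ≤ S10.card := by
    apply card_le_card_of_injOn (fun X => insert a X)
    · intro X hX
      rw [mem_coe, hS0l, mem_filter, hS, mem_SR] at hX
      rw [mem_coe, hS10, mem_filter, hS, mem_SR]
      obtain ⟨⟨h1, h2⟩, ⟨h3, h4⟩, h5⟩ := hX
      refine ⟨⟨?_, ?_⟩, mem_insert_self _ _, ?_⟩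
      · rw [card_insert_of_notMem h3]
        omega
      · intro c hc
        obtain ⟨e1, e2, e3, e4⟩ := hne c hc
        rw [mem_insert, mem_insert]
        have := h2 c hc
        tauto
      · rw [mem_insert]
        tauto
    · intro X hX Y hY hXY
      rw [mem_coe, hS0l, mem_filter] at hX hY
      simp only at hXY
      rw [← erase_insert hX.2.1.1, hXY, erase_insert hY.2.1.1]
  have h0e : S0e.card * (m - 2 * R.card) ≤ S10.card * n := by
    set P := R ∪ R.map σ.toEmbedding with hP
    have hPc : P.card ≤ 2 * R.card := by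
      have := card_union_le R (R.map σ.toEmbedding)
      rw [card_map] at this
      rw [hP]
      omega
    apply card_mul_le_card_mul (fun X Y => ∃ z ∈ X \ P, Y = insert a (X.erase z))
    · intro X hX
      rw [hS0e, mem_filter, hS, mem_SR] at hX
      obtain ⟨⟨h1, h2⟩, ⟨h3, h4⟩, h5⟩ := hX
      have hc : m - 2 * R.card ≤ (X \ P).card := by
        have := le_card_sdiff P X
        omega
      refine hc.trans ?_
      apply card_le_card_of_injOn (fun z => insert a (X.erase z))
      · intro z hz
        rw [mem_coe] at hz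
        have hz' := hz
        rw [mem_sdiff, hP, mem_union, not_or] at hz
        obtain ⟨hzX, hzR, hzR'⟩ := hz
        rw [mem_coe, mem_bipartiteAbove]
        refine ⟨?_, z, hz', rfl⟩
        rw [hS10, mem_filter, hS, mem_SR]
        have haE : a ∉ X.erase z := fun h => h3 (mem_erase.1 h).2
        refine ⟨⟨?_, ?_⟩, mem_insert_self _ _, ?_⟩
        · rw [card_insert_of_notMem haE, card_erase_of_mem hzX]
          have : 0 < X.card := card_pos.2 ⟨z, hzX⟩
          omega
        · intro c hc
          obtain ⟨e1, e2, e3, e4⟩ := hne c hc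
          have e5 : c ≠ z := fun h => hzR (h ▸ hc)
          have e6 : σ c ≠ z := fun h => hzR' (h ▸ mem_map_of_mem _ hc)
          rw [mem_insert, mem_insert, mem_erase, mem_erase]
          have := h2 c hc
          tauto
        · rw [mem_insert, mem_erase]
          tauto
      · intro z hz w hw hzw
        rw [mem_coe, mem_sdiff] at hz hw
        simp only at hzw
        by_contra hne2
        have h6 : w ∈ insert a (X.erase z) := by
          rw [mem_insert, mem_erase]
          right
          exact ⟨fun h => hne2 h.symm, hw.1⟩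
        rw [hzw, mem_insert, mem_erase] at h6
        rcases h6 with h6 | h6
        · exact h3 (h6 ▸ hw.1)
        · exact h6.1 rfl
    · intro Y hY
      rw [hS10, mem_filter] at hY
      have hsub : bipartiteBelow (fun X Y => ∃ z ∈ X \ P, Y = insert a (X.erase z)) S0e Y ⊆
          (univ : Finset (Fin n)).image (fun z => insert z (Y.erase a)) := by
        intro X hX
        rw [mem_bipartiteBelow] at hX
        obtain ⟨hX, z, hz, hYX⟩ := hX
        rw [hS0e, mem_filter] at hX
        rw [mem_sdiff] at hz
        rw [mem_image]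
        refine ⟨z, mem_univ _, ?_⟩
        have haE : a ∉ X.erase z := fun h => hX.2.1.1 (mem_erase.1 h).2
        rw [hYX, erase_insert haE, insert_erase hz.1]
      refine (card_le_card hsub).trans (card_image_le.trans ?_)
      rw [card_univ, Fintype.card_fin]
  have h0e' : S0e.card ≤ 14 * S10.card := by
    have h1 : S0e.card * m ≤ 2 * (S0e.card * (m - 2 * R.card)) := by
      have : m ≤ 2 * (m - 2 * R.card) := by omega
      calc S0e.card * m ≤ S0e.card * (2 * (m - 2 * R.card)) := Nat.mul_le_mul_left _ this
        _ = _ := by ring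
    have h2 : S0e.card * m ≤ (14 * S10.card) * m := by
      calc S0e.card * m ≤ 2 * (S0e.card * (m - 2 * R.card)) := h1
        _ ≤ 2 * (S10.card * n) := Nat.mul_le_mul_left _ h0e
        _ ≤ 2 * (S10.card * (7 * m)) := by
            apply Nat.mul_le_mul_left
            exact Nat.mul_le_mul_left _ hm
        _ = _ := by ring
    exact Nat.le_of_mul_le_mul_right h2 (by omega)
  -- the new set
  have hnew : (SR m σ (insert a R)).card ≤ S11.card + S0l.card + S0e.card := by
    have hsub : SR m σ (insert a R) ⊆ (S11 ∪ S0l) ∪ S0e := by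
      intro X hX
      rw [mem_SR] at hX
      have h1 := hX.2 a (mem_insert_self _ _)
      have h2 : X ∈ S := by
        rw [hS, mem_SR]
        exact ⟨hX.1, fun c hc => hX.2 c (mem_insert_of_mem hc)⟩
      rw [mem_union, mem_union, hS11, hS0l, hS0e, mem_filter, mem_filter, mem_filter]
      by_cases haX : a ∈ X
      · left; left
        exact ⟨h2, haX, h1.1 haX⟩
      · have hbX : b ∉ X := fun h => haX (h1.2 h)
        rcases hX.1.lt_or_eq with h | h
        · left; right
          exact ⟨h2, ⟨haX, hbX⟩, h⟩
        · right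
          exact ⟨h2, ⟨haX, hbX⟩, h⟩
    refine (card_le_card hsub).trans ((card_union_le _ _).trans ?_)
    have := card_union_le S11 S0l
    omega
  have htot : (SR m σ (insert a R)).card + S10.card ≤ S.card := by
    rw [← card_union_of_disjoint]
    · apply card_le_card
      intro X hX
      rw [mem_union] at hX
      rcases hX with hX | hX
      · rw [mem_SR] at hX
        rw [hS, mem_SR]
        exact ⟨hX.1, fun c hc => hX.2 c (mem_insert_of_mem hc)⟩
      · rw [hS10, mem_filter] at hX
        exact hX.1
    · rw [disjoint_left]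
      intro X hX hX'
      rw [mem_SR] at hX
      rw [hS10, mem_filter] at hX'
      exact hX'.2.2 ((hX.2 a (mem_insert_self _ _)).1 hX'.2.1)
  omega

/-- `q` disjoint pairs cost a factor `(16/17)^q`. -/
theorem SR_bound (m : ℕ) (σ : Equiv.Perm (Fin n)) (hm : n ≤ 7 * m) (R : Finset (Fin n))
    (hR : 4 * R.card ≤ m) (hd : Disjoint R (R.map σ.toEmbedding)) :
    17 ^ R.card * (SR m σ R).card ≤ 16 ^ R.card * FF n m := by
  classical
  induction R using Finset.induction_on with
  | empty =>
    rw [card_empty, pow_zero, pow_zero, one_mul, one_mul]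
    have h1 : SR m σ ∅ = smalls m univ := by
      unfold SR
      apply filter_true_of_mem
      intro X _ a ha
      exact absurd ha (notMem_empty _)
    rw [h1, card_smalls, card_univ, Fintype.card_fin]
  | insert a R ha ih =>
    rw [card_insert_of_notMem ha] at hR ⊢
    rw [disjoint_left] at hd
    have h1 : Disjoint R (R.map σ.toEmbedding) := by
      rw [disjoint_left]
      intro x hx hx'
      apply hd (mem_insert_of_mem hx)
      rw [mem_map] at hx' ⊢
      obtain ⟨c, hc, hcx⟩ := hx'
      exact ⟨c, mem_insert_of_mem hc, hcx⟩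
    have h2 := ih (by omega) h1
    have h3 : a ∉ R.map σ.toEmbedding := by
      intro h
      apply hd (mem_insert_self a R)
      rw [mem_map] at h ⊢
      obtain ⟨c, hc, hcx⟩ := h
      exact ⟨c, mem_insert_of_mem hc, hcx⟩
    have h4 : σ a ∉ R := by
      intro h
      exact hd (mem_insert_of_mem h) (mem_map_of_mem σ.toEmbedding (mem_insert_self a R))
    have h5 : σ a ≠ a := by
      intro h
      apply hd (mem_insert_self a R)
      rw [mem_map]
      exact ⟨a, mem_insert_self a R, h⟩
    have h6 := SR_step m σ R a ha h3 h4 h5 hR hm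
    calc 17 ^ (R.card + 1) * (SR m σ (insert a R)).card
        = 17 ^ R.card * (17 * (SR m σ (insert a R)).card) := by ring
      _ ≤ 17 ^ R.card * (16 * (SR m σ R).card) := Nat.mul_le_mul_left _ h6
      _ = 16 * (17 ^ R.card * (SR m σ R).card) := by ring
      _ ≤ 16 * (16 ^ R.card * FF n m) := Nat.mul_le_mul_left _ h2
      _ = _ := by ring

/-- Many disjoint pairs. -/
theorem exists_pairs (σ : Equiv.Perm (Fin n)) :
    ∃ R : Finset (Fin n), Disjoint R (R.map σ.toEmbedding) ∧
      (univ.filter (fun i => σ i ≠ i)).card ≤ 3 * R.card := by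
  classical
  obtain ⟨R, hR, hmax⟩ := Finset.exists_max_image
    ((univ : Finset (Finset (Fin n))).filter (fun R => Disjoint R (R.map σ.toEmbedding)))
    (fun R => R.card) ⟨∅, by simp⟩
  rw [mem_filter] at hR
  refine ⟨R, hR.2, ?_⟩
  have hsub : univ.filter (fun i => σ i ≠ i) ⊆ (R ∪ R.map σ.toEmbedding) ∪
      R.map (σ⁻¹).toEmbedding := by
    intro a ha
    rw [mem_filter] at ha
    by_contra hcon
    rw [mem_union, mem_union, not_or, not_or] at hcon
    obtain ⟨⟨h1, h2⟩, h3⟩ := hcon
    have h4 : σ a ∉ R := by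
      intro h
      apply h3
      rw [mem_map]
      exact ⟨σ a, h, by simp⟩
    have h5 : insert a R ∈
        (univ : Finset (Finset (Fin n))).filter (fun R => Disjoint R (R.map σ.toEmbedding)) := by
      rw [mem_filter]
      refine ⟨mem_univ _, ?_⟩
      rw [disjoint_left]
      intro x hx hx'
      rw [mem_map] at hx'
      obtain ⟨c, hc, rfl⟩ := hx'
      rw [mem_insert] at hx hc
      have hd := disjoint_left.1 hR.2
      rcases hx with hx | hx <;> rcases hc with hc | hc
      · subst hc
        exact ha.2 hx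
      · apply h2
        rw [mem_map]
        exact ⟨c, hc, hx⟩
      · subst hc
        exact h4 hx
      · exact hd hx (mem_map_of_mem _ hc)
    have h6 := hmax _ h5
    rw [card_insert_of_notMem h1] at h6
    omega
  refine (card_le_card hsub).trans ((card_union_le _ _).trans ?_)
  have h1 := card_union_le R (R.map σ.toEmbedding)
  rw [card_map] at h1 ⊢
  omega

/-- Small sets fixed by `σ`. -/
def inv (m : ℕ) (σ : Equiv.Perm (Fin n)) : Finset (Finset (Fin n)) :=
  (smalls m univ).filter (fun X => X.map σ.toEmbedding = X)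

theorem mem_inv (m : ℕ) (σ : Equiv.Perm (Fin n)) (X : Finset (Fin n)) :
    X ∈ inv m σ ↔ X.card ≤ m ∧ X.map σ.toEmbedding = X := by
  unfold inv smalls
  rw [mem_filter, mem_filter, mem_powerset]
  simp

theorem inv_bound (m : ℕ) (σ : Equiv.Perm (Fin n)) (hm : n ≤ 7 * m) (q : ℕ) (hq : 4 * q ≤ m)
    (hq2 : 3 * q < (univ.filter (fun i => σ i ≠ i)).card + 3) :
    17 ^ q * (inv m σ).card ≤ 16 ^ q * FF n m := by
  classical
  obtain ⟨R, hR, hRc⟩ := exists_pairs σ
  obtain ⟨R', hR', hc⟩ := exists_subset_card_eq (s := R) (n := q) (by omega)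
  have h1 := SR_bound m σ hm R' (by omega) (by
    rw [disjoint_left] at hR ⊢
    intro x hx hx'
    exact hR (hR' hx) (map_subset_map.2 hR' hx'))
  rw [hc] at h1
  refine le_trans ?_ h1
  apply Nat.mul_le_mul_left
  apply card_le_card
  intro X hX
  rw [mem_inv] at hX
  rw [mem_SR]
  refine ⟨hX.1, ?_⟩
  intro a _
  constructor
  · intro h
    rw [← hX.2]
    exact mem_map_of_mem _ h
  · intro h
    rw [← hX.2, mem_map] at h
    obtain ⟨c, hc, hca⟩ := h
    have : c = a := σ.injective hca
    rwa [← this]

end Pool.Agent.H130R2.TU
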