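import Pool.Agent.Helper46.T.Final

set_option autoImplicit false
set_option linter.unusedSectionVars false

namespace Pool.Agent.H130R2.TU

open Finset Pool.Agent.Helper46.T

variable {n s : ℕ}

/-- Isomorphism of matroids on `Fin n`. -/
def Iso (M N : Matroid (Fin n)) : Prop :=
  ∃ e : Fin n ≃ Fin n, ∀ I : Set (Fin n), M.Indep I ↔ N.Indep (e '' I)

theorem Iso.refl (M : Matroid (Fin n)) : Iso M M := ⟨Equiv.refl _, fun I => by simp⟩

theorem Iso.symm {M N : Matroid (Fin n)} (h : Iso M N) : Iso N M := by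
  obtain ⟨e, he⟩ := h
  refine ⟨e.symm, fun I => ?_⟩
  rw [he, Set.image_image]
  simp

theorem Iso.trans {M N P : Matroid (Fin n)} (h : Iso M N) (h' : Iso N P) : Iso M P := by
  obtain ⟨e, he⟩ := h
  obtain ⟨f, hf⟩ := h'
  refine ⟨e.trans f, fun I => ?_⟩
  rw [he, hf, Set.image_image]
  rfl

/-- The isomorphism setoid. -/
def isoS (n : ℕ) : Setoid (Matroid (Fin n)) :=
  ⟨Iso, ⟨Iso.refl, Iso.symm, Iso.trans⟩⟩

/-- The isomorphism class. -/
def cls (M : Matroid (Fin n)) : Quotient (isoS n) := Quotient.mk (isoS n) M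

theorem cls_eq {M N : Matroid (Fin n)} : cls M = cls N ↔ Iso M N := by
  unfold cls
  exact Quotient.eq (r := isoS n)

/-- Each class has at most `n!` members. -/
theorem card_fiber [DecidableEq (Quotient (isoS n))] (S : Finset (Matroid (Fin n)))
    (hS : ∀ M ∈ S, M.E = Set.univ) :
    S.card ≤ n.factorial * (S.image cls).card := by
  classical
  apply card_le_mul_card_image
  intro c hc
  rw [mem_image] at hc
  obtain ⟨M0, hM0, rfl⟩ := hc
  have h1 : ∀ M : Matroid (Fin n), ∃ e : Equiv.Perm (Fin n), cls M = cls M0 →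
        ∀ I : Set (Fin n), M.Indep I ↔ M0.Indep (e '' I) := by
    intro M
    by_cases hM : cls M = cls M0
    · obtain ⟨e, he⟩ := cls_eq.1 hM
      exact ⟨e, fun _ => he⟩
    · exact ⟨1, fun h => absurd h hM⟩
  choose f hf using h1
  have h2 : (Finset.univ : Finset (Equiv.Perm (Fin n))).card = n.factorial := by
    rw [card_univ, Fintype.card_perm, Fintype.card_fin]
  rw [← h2]
  apply card_le_card_of_injOn f (fun _ _ => mem_univ _)
  intro M hM M' hM' hMM
  rw [mem_coe, mem_filter] at hM hM'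
  apply Matroid.ext_indep (by rw [hS M hM.1, hS M' hM'.1])
  intro I _
  rw [hf M hM.2, hf M' hM'.2, hMM]

/-- The action on families. -/
def act (g : Equiv.Perm (Fin n) × Equiv.Perm (Fin s)) (A : Fin s → Finset (Fin n)) :
    Fin s → Finset (Fin n) :=
  fun i => (A (g.2⁻¹ i)).map g.1.toEmbedding

theorem act_mul (g h : Equiv.Perm (Fin n) × Equiv.Perm (Fin s)) (A : Fin s → Finset (Fin n)) :
    act (g * h) A = act g (act h A) := by
  funext i
  ext x
  simp only [act, Prod.fst_mul, Prod.snd_mul, mem_map, Equiv.coe_toEmbedding, mul_inv_rev,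
    Equiv.Perm.mul_apply]
  constructor
  · rintro ⟨a, ha, rfl⟩
    exact ⟨h.1 a, ⟨a, ha, rfl⟩, rfl⟩
  · rintro ⟨b, ⟨a, ha, rfl⟩, rfl⟩
    exact ⟨a, ha, rfl⟩

theorem act_one (A : Fin s → Finset (Fin n)) :
    act (1 : Equiv.Perm (Fin n) × Equiv.Perm (Fin s)) A = A := by
  funext i
  ext x
  simp only [act, Prod.fst_one, Prod.snd_one, inv_one, Equiv.Perm.one_apply, mem_map,
    Equiv.coe_toEmbedding]
  constructor
  · rintro ⟨a, ha, rfl⟩
    exact ha
  · intro hx
    exact ⟨x, hx, rfl⟩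

theorem act_mem_AL (g : Equiv.Perm (Fin n) × Equiv.Perm (Fin s)) (A : Fin s → Finset (Fin n))
    (hA : A ∈ AL n s) : act g A ∈ AL n s := by
  unfold AL at *
  rw [mem_filter] at *
  refine ⟨mem_univ _, fun i => ?_⟩
  rw [act, card_map]
  exact hA.2 _

theorem act_typ (g : Equiv.Perm (Fin n) × Equiv.Perm (Fin s)) (A : Fin s → Finset (Fin n))
    (hA : Typ A) : Typ (act g A) := by
  intro I hI
  have h1 := hA (I.map (g.2⁻¹).toEmbedding) (by rw [card_map]; exact hI)
  rw [card_map] at h1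
  have h2 : I.biUnion (act g A) =
      ((I.map (g.2⁻¹).toEmbedding).biUnion A).map g.1.toEmbedding := by
    ext x
    simp only [act, mem_biUnion, mem_map, Equiv.coe_toEmbedding]
    constructor
    · rintro ⟨i, hi, a, ha, rfl⟩
      exact ⟨a, ⟨_, ⟨i, hi, rfl⟩, ha⟩, rfl⟩
    · rintro ⟨a, ⟨_, ⟨i, hi, rfl⟩, ha⟩, rfl⟩
      exact ⟨i, hi, a, ha, rfl⟩
  rw [h2, card_map]
  exact h1

theorem act_mem_NT (g : Equiv.Perm (Fin n) × Equiv.Perm (Fin s)) (A : Fin s → Finset (Fin n))
    (hA : A ∈ NT n s) : act g A ∈ NT n s := by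
  classical
  unfold NT at *
  rw [mem_filter] at *
  refine ⟨act_mem_AL g A hA.1, fun h => hA.2 ?_⟩
  have := act_typ g⁻¹ _ h
  rwa [← act_mul, inv_mul_cancel, act_one] at this

theorem act_inj (g : Equiv.Perm (Fin n) × Equiv.Perm (Fin s)) (A : Fin s → Finset (Fin n))
    (hA : Function.Injective A) : Function.Injective (act g A) := by
  intro i j hij
  have h1 := Finset.map_injective g.1.toEmbedding hij
  exact (g.2⁻¹).injective (hA h1)

section

variable [Nonempty (Fin n)]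

theorem bas_act (g : Equiv.Perm (Fin n) × Equiv.Perm (Fin s)) (A : Fin s → Finset (Fin n))
    (B : Finset (Fin n)) (hB : B ∈ bas A) : B.map g.1.toEmbedding ∈ bas (act g A) := by
  rw [mem_bas] at *
  obtain ⟨f, hf, hfA, rfl⟩ := hB
  refine ⟨fun i => g.1 (f (g.2⁻¹ i)), ?_, ?_, ?_⟩
  · intro i j hij
    exact (g.2⁻¹).injective (hf (g.1.injective hij))
  · intro j
    rw [act, mem_map]
    exact ⟨_, hfA _, rfl⟩
  · ext x
    simp only [mem_image, mem_univ, true_and, mem_map, Equiv.coe_toEmbedding]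
    constructor
    · rintro ⟨i, rfl⟩
      exact ⟨_, ⟨_, rfl⟩, rfl⟩
    · rintro ⟨_, ⟨i, rfl⟩, rfl⟩
      exact ⟨g.2 i, by simp⟩

theorem lift_act (σ : Equiv.Perm (Fin n)) (S S' : Finset (Finset (Fin n)))
    (h : ∀ B ∈ S, B.map σ.toEmbedding ∈ S') : ∀ B ∈ Lift S, B.map σ.toEmbedding ∈ Lift S' := by
  intro B hB
  rw [mem_Lift] at *
  obtain ⟨b, hb, hB⟩ := hB
  refine ⟨σ b, mem_map_of_mem _ hb, ?_⟩
  have h1 := h _ hB
  rw [Finset.map_erase] at h1
  exact h1

theorem iter_act (g : Equiv.Perm (Fin n) × Equiv.Perm (Fin s)) (A : Fin s → Finset (Fin n))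
    (j : ℕ) (B : Finset (Fin n)) (hB : B ∈ Lift^[j] (bas A)) :
    B.map g.1.toEmbedding ∈ Lift^[j] (bas (act g A)) := by
  induction j generalizing B with
  | zero => exact bas_act g A B hB
  | succ j ih =>
    rw [Function.iterate_succ_apply'] at hB ⊢
    exact lift_act g.1 _ _ ih B hB

theorem iso_of_act (g : Equiv.Perm (Fin n) × Equiv.Perm (Fin s)) (A : Fin s → Finset (Fin n))
    (j : ℕ) (M N : Matroid (Fin n)) (hM : HasB M (Lift^[j] (bas A)))
    (hN : HasB N (Lift^[j] (bas (act g A)))) : Iso M N := by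
  have h1 : ∀ B : Set (Fin n), M.IsBase B → N.IsBase (g.1 '' B) := by
    intro B hB
    have hBf : B.Finite := Set.toFinite B
    rw [← hBf.coe_toFinset] at hB ⊢
    have := iter_act g A j _ ((hM.2 _).1 hB)
    have h2 := (hN.2 _).2 this
    rwa [coe_map] at h2
  have h2 : ∀ B : Set (Fin n), N.IsBase B → M.IsBase (g.1.symm '' B) := by
    intro B hB
    have hBf : B.Finite := Set.toFinite B
    rw [← hBf.coe_toFinset] at hB ⊢
    have := iter_act g⁻¹ (act g A) j _ ((hN.2 _).1 hB)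
    rw [← act_mul, inv_mul_cancel, act_one] at this
    have h2 := (hM.2 _).2 this
    rwa [coe_map] at h2
  refine ⟨g.1, fun I => ?_⟩
  rw [Matroid.indep_iff, Matroid.indep_iff]
  constructor
  · rintro ⟨B, hB, hIB⟩
    exact ⟨_, h1 B hB, Set.image_mono hIB⟩
  · rintro ⟨B, hB, hIB⟩
    refine ⟨_, h2 B hB, ?_⟩
    intro x hx
    exact ⟨g.1 x, hIB ⟨x, hx, rfl⟩, by simp⟩

end

end Pool.Agent.H130R2.TU
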