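import Pool.Agent.H130R2.TU.Sums

set_option autoImplicit false
set_option linter.unusedSectionVars false

namespace Pool.Agent.H130R2.TU

open Finset Filter Pool.Agent.Helper46.T

open Classical in
/-- Number of isomorphism classes of transversal matroids. -/
noncomputable def TI (n : ℕ) : ℝ :=
  (((univ.filter (fun M : Matroid (Fin n) => IsTransversal M)).image cls).card : ℝ)

open Classical in
/-- Number of isomorphism classes of Tutte unique transversal matroids. -/
noncomputable def UI (n : ℕ) : ℝ :=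
  (((univ.filter (fun M : Matroid (Fin n) => IsTransversal M ∧ TutteUnique M)).image cls).card : ℝ)

theorem tt_le_ti (n : ℕ) : TT n ≤ n.factorial * TI n := by
  classical
  unfold TT TI
  have h := card_fiber (univ.filter (fun M : Matroid (Fin n) => IsTransversal M))
    (fun M hM => (mem_filter.1 hM).2.1)
  exact_mod_cast h

variable {n : ℕ}

open Classical in
theorem atyp_classes [Nonempty (Fin n)] (s j : ℕ) (hs : s ≤ n) (hn : 70 ≤ n)
    (hC : (n : ℝ) ^ 4 * (7 / 8) ^ (n / 70) ≤ 1) (hD : eps n ≤ 1 / 2)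
    (hn5 : (n : ℝ) ^ 5 ≤ 4 ^ (n / 7)) (hd : (n : ℝ) ^ 27 * (49 / 50) ^ (n / 2) ≤ 1)
    (S : Finset (Matroid (Fin n)))
    (hS : ∀ M ∈ S, ∃ A ∈ NT n s, Function.Injective A ∧ HasB M (Lift^[j] (bas A))) :
    ((S.image cls).card : ℝ) ≤ 2 * (eps n + del n) * TI n + 2 ^ (3 * n * n / 5 + 1) := by
  have hTI : 0 ≤ TI n := Nat.cast_nonneg _
  have heps : 0 ≤ eps n := by unfold eps; positivity
  have hdel : 0 ≤ del n := by unfold del; positivity
  by_cases h : 5 * (n - s) ≤ 2 * n ∧ n ≤ 7 * (n - s)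
  · have h1 := orbit_count (n := n) (s := s) j (S.image cls) (by
      intro c hc
      rw [mem_image] at hc
      obtain ⟨M, hM, rfl⟩ := hc
      obtain ⟨A, hA, hinj, hB⟩ := hS M hM
      refine ⟨M, A, rfl, ?_, hB⟩
      unfold NI
      rw [mem_filter]
      exact ⟨hA, hinj⟩)
    have h2 := h1.trans sum_fix
    have h3 := sum_sigma (n := n) (s := s) hs h.2 h.1 hn hn5 hd
    have h4 := in_range n s hs h.1 h.2 (by omega) hC
    have h5 : ((S.image cls).card : ℝ) * ((n.factorial : ℝ) * s.factorial) ≤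
        (eps n + del n) * (FF n (n - s) : ℝ) ^ s := by
      calc ((S.image cls).card : ℝ) * ((n.factorial : ℝ) * s.factorial)
          ≤ ((NT n s).card : ℝ) + ∑ σ ∈ (univ : Finset (Equiv.Perm (Fin n))).erase 1,
            ∑ π : Equiv.Perm (Fin s), ((Fx n s (σ, π)).card : ℝ) := by exact_mod_cast h2
        _ ≤ eps n * (FF n (n - s) : ℝ) ^ s + del n * (FF n (n - s) : ℝ) ^ s :=
            add_le_add h4 h3
        _ = _ := by ring
    have h6 := ty_lower n s hs h.1 h.2 (by omega) hC hD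
    have h7 := tt_le_ti n
    have hnf : (0 : ℝ) < n.factorial := by exact_mod_cast n.factorial_pos
    have hsf : (0 : ℝ) < s.factorial := by exact_mod_cast s.factorial_pos
    have h8 : ((S.image cls).card : ℝ) * n.factorial ≤
        (2 * (eps n + del n) * TI n) * n.factorial := by
      calc ((S.image cls).card : ℝ) * n.factorial
          = ((S.image cls).card : ℝ) * ((n.factorial : ℝ) * s.factorial) / s.factorial := by
            field_simp
        _ ≤ (eps n + del n) * (FF n (n - s) : ℝ) ^ s / s.factorial :=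
            div_le_div_of_nonneg_right h5 hsf.le
        _ = (eps n + del n) * ((FF n (n - s) : ℝ) ^ s / s.factorial) := by ring
        _ ≤ (eps n + del n) * (2 * TT n) := mul_le_mul_of_nonneg_left h6 (by positivity)
        _ ≤ (eps n + del n) * (2 * (n.factorial * TI n)) := by
            apply mul_le_mul_of_nonneg_left _ (by positivity)
            linarith
        _ = _ := by ring
    have h9 := le_of_mul_le_mul_right h8 hnf
    have h10 : (0 : ℝ) ≤ 2 ^ (3 * n * n / 5 + 1) := by positivity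
    linarith
  · have h1 := out_range n s hs h
    have h2 := card_TY_add n s
    rw [card_AL hs] at h2
    have h3 : (NT n s).card ≤ 2 ^ (3 * n * n / 5 + 1) := by omega
    have h4 := card_atyp (n := n) (s := s) j S hS
    have h5 : (S.image cls).card ≤ 2 ^ (3 * n * n / 5 + 1) := by
      refine card_image_le.trans (le_trans ?_ h3)
      refine le_trans ?_ h4
      exact Nat.le_mul_of_pos_right _ s.factorial_pos
    have h6 : ((S.image cls).card : ℝ) ≤ 2 ^ (3 * n * n / 5 + 1) := by exact_mod_cast h5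
    have h7 : 0 ≤ 2 * (eps n + del n) * TI n := by positivity
    linarith

open Classical in
theorem upper_iso [Nonempty (Fin n)] (hn : 70 ≤ n)
    (hC : (n : ℝ) ^ 4 * (7 / 8) ^ (n / 70) ≤ 1) (hD : eps n ≤ 1 / 2)
    (hn5 : (n : ℝ) ^ 5 ≤ 4 ^ (n / 7)) (hd : (n : ℝ) ^ 27 * (49 / 50) ^ (n / 2) ≤ 1) :
    UI n ≤ ((n : ℝ) + 1) ^ 2 * (((n : ℝ) + 1) ^ n +
      (2 * (eps n + del n) * TI n + 2 ^ (3 * n * n / 5 + 1))) := by
  set U := univ.filter (fun M : Matroid (Fin n) => IsTransversal M ∧ TutteUnique M) with hU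
  set W : ℝ := 2 * (eps n + del n) * TI n + 2 ^ (3 * n * n / 5 + 1) with hW
  have hcov : U.image cls ⊆ (range (n + 1)).biUnion (fun s => (range (n + 1)).biUnion (fun j =>
      ((univ : Finset (Fin s → Fin (n + 1))).biUnion (fun c =>
        (U.filter (fun M => ∃ A : Fin s → Finset (Fin n), Typ A ∧
          (∀ i, (A i).card = (c i : ℕ)) ∧ HasB M (pav (s + j) A))).image cls)) ∪
      (U.filter (fun M => ∃ A ∈ NT n s, Function.Injective A ∧
        HasB M (Lift^[j] (bas A)))).image cls)) := by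
    intro c hc
    rw [mem_image] at hc
    obtain ⟨M, hM, rfl⟩ := hc
    have hM' := hM
    rw [hU, mem_filter] at hM'
    obtain ⟨s, j, hsj, A, hinj, hsz, hB⟩ := trans_decomp M hM'.2.1
    rw [mem_biUnion]
    refine ⟨s, by rw [mem_range]; omega, ?_⟩
    rw [mem_biUnion]
    refine ⟨j, by rw [mem_range]; omega, ?_⟩
    rw [mem_union]
    by_cases hT : Typ A
    · left
      rw [mem_biUnion]
      refine ⟨fun i => ⟨(A i).card, by have := hsz i; omega⟩, mem_univ _, ?_⟩
      apply mem_image_of_mem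
      rw [mem_filter]
      refine ⟨hM, A, hT, fun i => rfl, ?_⟩
      rw [← iterate_lift A hT j]
      exact hB
    · right
      apply mem_image_of_mem
      rw [mem_filter]
      refine ⟨hM, A, ?_, hinj, hB⟩
      unfold NT AL
      rw [mem_filter, mem_filter]
      exact ⟨⟨mem_univ _, hsz⟩, hT⟩
  have h1 : ∀ s ∈ range (n + 1), ∀ j ∈ range (n + 1),
      (((((univ : Finset (Fin s → Fin (n + 1))).biUnion (fun c =>
        (U.filter (fun M => ∃ A : Fin s → Finset (Fin n), Typ A ∧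
          (∀ i, (A i).card = (c i : ℕ)) ∧ HasB M (pav (s + j) A))).image cls)) ∪
      (U.filter (fun M => ∃ A ∈ NT n s, Function.Injective A ∧
        HasB M (Lift^[j] (bas A)))).image cls).card : ℕ) : ℝ) ≤
      ((n : ℝ) + 1) ^ n + W := by
    intro s hs j _
    rw [mem_range] at hs
    have h2 : ((univ : Finset (Fin s → Fin (n + 1))).biUnion (fun c =>
        (U.filter (fun M => ∃ A : Fin s → Finset (Fin n), Typ A ∧
          (∀ i, (A i).card = (c i : ℕ)) ∧ HasB M (pav (s + j) A))).image cls)).card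
        ≤ (n + 1) ^ n := by
      refine card_biUnion_le.trans ?_
      have h3 : ∀ c ∈ (univ : Finset (Fin s → Fin (n + 1))),
          ((U.filter (fun M => ∃ A : Fin s → Finset (Fin n), Typ A ∧
          (∀ i, (A i).card = (c i : ℕ)) ∧ HasB M (pav (s + j) A))).image cls).card ≤ 1 := by
        intro c _
        rw [card_le_one]
        intro a ha b hb
        rw [mem_image] at ha hb
        obtain ⟨M, hM, rfl⟩ := ha
        obtain ⟨M', hM', rfl⟩ := hb
        rw [mem_filter, hU, mem_filter] at hM hM'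
        obtain ⟨⟨-, hM1, hM2⟩, A, hT, hc, hB⟩ := hM
        obtain ⟨⟨-, hM1', hM2'⟩, A', hT', hc', hB'⟩ := hM'
        rw [cls_eq]
        have h5 := tutte_congr M M' A A' hT hT' (s + j) (by omega) hB hB'
          (fun i => by rw [hc, hc'])
        obtain ⟨e, he⟩ := hM2' n M hM1.1 h5
        exact ⟨e, he⟩
      refine (sum_le_sum h3).trans ?_
      rw [sum_const, card_univ, Fintype.card_fun, Fintype.card_fin, Fintype.card_fin, smul_eq_mul,
        mul_one]
      exact Nat.pow_le_pow_right (by omega) (by omega)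
    have h4 := atyp_classes (n := n) s j (by omega) hn hC hD hn5 hd
      (U.filter (fun M => ∃ A ∈ NT n s, Function.Injective A ∧ HasB M (Lift^[j] (bas A))))
      (fun M hM => (mem_filter.1 hM).2)
    have h5 := card_union_le ((univ : Finset (Fin s → Fin (n + 1))).biUnion (fun c =>
        (U.filter (fun M => ∃ A : Fin s → Finset (Fin n), Typ A ∧
          (∀ i, (A i).card = (c i : ℕ)) ∧ HasB M (pav (s + j) A))).image cls))
      ((U.filter (fun M => ∃ A ∈ NT n s, Function.Injective A ∧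
        HasB M (Lift^[j] (bas A)))).image cls)
    refine (show _ ≤ ((_ : ℕ) : ℝ) from Nat.cast_le.2 h5).trans ?_
    push_cast
    apply add_le_add _ h4
    exact_mod_cast h2
  have h7 : ((U.image cls).card : ℝ) ≤ ∑ s ∈ range (n + 1), ∑ j ∈ range (n + 1),
      (((n : ℝ) + 1) ^ n + W) := by
    refine (show _ ≤ ((_ : ℕ) : ℝ) from Nat.cast_le.2
      ((card_le_card hcov).trans card_biUnion_le)).trans ?_
    push_cast
    apply sum_le_sum
    intro s hs
    refine (show _ ≤ ((_ : ℕ) : ℝ) from Nat.cast_le.2 card_biUnion_le).trans ?_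
    push_cast
    apply sum_le_sum
    intro j hj
    exact h1 s hs j hj
  refine h7.trans (le_of_eq ?_)
  simp only [sum_const, card_range, nsmul_eq_mul]
  push_cast
  ring

theorem tail_bound (hn : 70 ≤ n) (hC : (n : ℝ) ^ 4 * (7 / 8) ^ (n / 70) ≤ 1)
    (hD : eps n ≤ 1 / 2)
    (hE : 2 ^ 160 * ((n : ℝ) + 1) ^ 78 * (1 / 2) ^ (n / 10) ≤ 1) :
    ((n : ℝ) + 1) ^ 2 * (2 * ((n : ℝ) + 1) ^ (2 * n) * 2 ^ (3 * n * n / 5 + 1)) ≤
      2 ^ 160 * (((n : ℝ) + 1) ^ 78 * (1 / 2) ^ (n / 10)) * TT n := by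
  have h2 := tt_lower n hn hC hD
  have hn1 : (1 : ℝ) ≤ (n : ℝ) + 1 := by linarith [Nat.cast_nonneg (α := ℝ) n]
  have hT : 0 ≤ TT n := Nat.cast_nonneg _
  set q := n / 10 with hq
  have hq1 : 1 ≤ q := by omega
  set B : ℝ := 2 ^ 160 * ((n : ℝ) + 1) ^ 78 * (1 / 2) ^ q with hB
  have hB0 : 0 ≤ B := by positivity
  have hBq : B ^ q ≤ B := pow_le_of_le_one hB0 hE (by omega)
  have e0 : 2 ^ 160 * (((n : ℝ) + 1) ^ 78 * (1 / 2) ^ q) = B := by rw [hB]; ring
  rw [e0]
  have e1 : 3 * n * n / 5 + 1 ≤ 60 * q * q + 108 * q + 50 := by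
    have : n ≤ 10 * q + 9 := by omega
    have h3 : 3 * n * n ≤ 3 * (10 * q + 9) * (10 * q + 9) := by nlinarith
    have h4 : 3 * (10 * q + 9) * (10 * q + 9) = 5 * (60 * q * q + 108 * q) + 243 := by ring
    omega
  have e2 : (2 : ℝ) ^ (3 * n * n / 5 + 1) ≤ 2 ^ (60 * q * q + 108 * q + 50) :=
    pow_le_pow_right₀ (by norm_num) e1
  have e3 : ((n : ℝ) + 1) ^ 2 * ((n : ℝ) + 1) ^ (2 * n) * ((n : ℝ) + 1) ^ (2 * n)
      ≤ (((n : ℝ) + 1) ^ 78) ^ q := by
    rw [← pow_add, ← pow_add, ← pow_mul]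
    exact pow_le_pow_right₀ hn1 (by omega)
  have e4 : (4 : ℝ) * 2 ^ (60 * q * q + 108 * q + 50) ≤
      (2 ^ 160) ^ q * (1 / 2) ^ (q * q) * 2 ^ (61 * q * q) := by
    have h5 : (1 / 2 : ℝ) ^ (q * q) * 2 ^ (61 * q * q) = 2 ^ (60 * q * q) := by
      have : 61 * q * q = q * q + 60 * q * q := by ring
      rw [this, pow_add, ← mul_assoc, ← mul_pow]
      norm_num
    rw [mul_assoc (((2 : ℝ) ^ 160) ^ q) _ _, h5, ← pow_mul, ← pow_add]
    have h6 : (4 : ℝ) = 2 ^ 2 := by norm_num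
    rw [h6, ← pow_add]
    apply pow_le_pow_right₀ (by norm_num)
    omega
  calc ((n : ℝ) + 1) ^ 2 * (2 * ((n : ℝ) + 1) ^ (2 * n) * 2 ^ (3 * n * n / 5 + 1))
      ≤ ((n : ℝ) + 1) ^ 2 * (2 * ((n : ℝ) + 1) ^ (2 * n) *
        2 ^ (60 * q * q + 108 * q + 50)) := by
        apply mul_le_mul_of_nonneg_left _ (by positivity)
        exact mul_le_mul_of_nonneg_left e2 (by positivity)
    _ = (((n : ℝ) + 1) ^ 2 * ((n : ℝ) + 1) ^ (2 * n)) * (1 / 2) *
        (4 * 2 ^ (60 * q * q + 108 * q + 50)) := by ring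
    _ ≤ (((n : ℝ) + 1) ^ 2 * ((n : ℝ) + 1) ^ (2 * n)) * (1 / 2) *
        ((2 ^ 160) ^ q * (1 / 2) ^ (q * q) * 2 ^ (61 * q * q)) := by
        exact mul_le_mul_of_nonneg_left e4 (by positivity)
    _ ≤ (((n : ℝ) + 1) ^ 2 * ((n : ℝ) + 1) ^ (2 * n)) * (1 / 2) *
        ((2 ^ 160) ^ q * (1 / 2) ^ (q * q) * (2 * ((n : ℝ) + 1) ^ (2 * n) * TT n)) := by
        apply mul_le_mul_of_nonneg_left _ (by positivity)
        exact mul_le_mul_of_nonneg_left h2 (by positivity)
    _ = (((n : ℝ) + 1) ^ 2 * ((n : ℝ) + 1) ^ (2 * n) * ((n : ℝ) + 1) ^ (2 * n)) *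
        ((2 ^ 160) ^ q * (1 / 2) ^ (q * q)) * TT n := by ring
    _ ≤ ((((n : ℝ) + 1) ^ 78) ^ q) * ((2 ^ 160) ^ q * (1 / 2) ^ (q * q)) * TT n := by
        apply mul_le_mul_of_nonneg_right _ hT
        exact mul_le_mul_of_nonneg_right e3 (by positivity)
    _ = B ^ q * TT n := by
        rw [hB, mul_pow, mul_pow, ← pow_mul (1 / 2 : ℝ) q q]
        ring
    _ ≤ B * TT n := mul_le_mul_of_nonneg_right hBq hT

theorem ratio_iso (hn : 70 ≤ n) (hC : (n : ℝ) ^ 4 * (7 / 8) ^ (n / 70) ≤ 1)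
    (hD : eps n ≤ 1 / 2)
    (hE : 2 ^ 160 * ((n : ℝ) + 1) ^ 78 * (1 / 2) ^ (n / 10) ≤ 1)
    (hn5 : (n : ℝ) ^ 5 ≤ 4 ^ (n / 7)) (hd : (n : ℝ) ^ 27 * (49 / 50) ^ (n / 2) ≤ 1) :
    UI n / TI n ≤ 4 * (((n : ℝ) + 1) ^ 7 * (7 / 8) ^ (n / 70)) +
      18 * (((n : ℝ) + 1) ^ 29 * (49 / 50) ^ (n / 2)) +
      2 ^ 160 * (((n : ℝ) + 1) ^ 78 * (1 / 2) ^ (n / 10)) := by
  have : Nonempty (Fin n) := ⟨⟨0, by omega⟩⟩
  have h1 := upper_iso hn hC hD hn5 hd
  have h2 := tail_bound hn hC hD hE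
  have h3 := tt_le_ti n
  have h4 := tt_lower n hn hC hD
  have hn1 : (1 : ℝ) ≤ (n : ℝ) + 1 := by linarith [Nat.cast_nonneg (α := ℝ) n]
  have hTI0 : 0 ≤ TI n := Nat.cast_nonneg _
  have hTI : 0 < TI n := by
    rcases hTI0.lt_or_eq with h | h
    · exact h
    · exfalso
      rw [← h, mul_zero] at h3
      have h5 : (0 : ℝ) < 2 ^ (61 * (n / 10) * (n / 10)) := by positivity
      have h6 : 2 * ((n : ℝ) + 1) ^ (2 * n) * TT n ≤ 0 :=
        mul_nonpos_of_nonneg_of_nonpos (by positivity) h3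
      linarith
  rw [div_le_iff₀ hTI]
  refine h1.trans ?_
  have hf : (n.factorial : ℝ) ≤ ((n : ℝ) + 1) ^ n := by
    have e1 : n.factorial ≤ (n + 1) ^ n :=
      (Nat.factorial_le_pow n).trans (Nat.pow_le_pow_left (by omega) n)
    exact_mod_cast e1
  have hf0 : (0 : ℝ) < n.factorial := by exact_mod_cast n.factorial_pos
  set V : ℝ := 2 ^ (3 * n * n / 5 + 1) with hV
  have hV1 : 1 ≤ V := one_le_pow₀ (by norm_num)
  set Y : ℝ := 2 ^ 160 * (((n : ℝ) + 1) ^ 78 * (1 / 2) ^ (n / 10)) with hY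
  have hY0 : 0 ≤ Y := by positivity
  -- the non proportional part
  have h5 : ((n : ℝ) + 1) ^ 2 * (((n : ℝ) + 1) ^ n + V) ≤ Y * TI n := by
    have hW : (1 : ℝ) ≤ ((n : ℝ) + 1) ^ n := one_le_pow₀ hn1
    have e1 : ((n : ℝ) + 1) ^ n + V ≤ 2 * (((n : ℝ) + 1) ^ n * V) := by
      set W := ((n : ℝ) + 1) ^ n
      nlinarith
    have e2 : (((n : ℝ) + 1) ^ 2 * (((n : ℝ) + 1) ^ n + V)) * n.factorial ≤
        (Y * TI n) * n.factorial := by
      calc (((n : ℝ) + 1) ^ 2 * (((n : ℝ) + 1) ^ n + V)) * n.factorial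
          ≤ (((n : ℝ) + 1) ^ 2 * (2 * (((n : ℝ) + 1) ^ n * V))) * ((n : ℝ) + 1) ^ n := by
            apply mul_le_mul _ hf hf0.le (by positivity)
            exact mul_le_mul_of_nonneg_left e1 (by positivity)
        _ = ((n : ℝ) + 1) ^ 2 * (2 * ((n : ℝ) + 1) ^ (2 * n) * V) := by
            rw [two_mul n, pow_add]
            ring
        _ ≤ Y * TT n := h2
        _ ≤ Y * (n.factorial * TI n) := mul_le_mul_of_nonneg_left h3 hY0
        _ = _ := by ring
    exact le_of_mul_le_mul_right e2 hf0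
  have h6 : ((n : ℝ) + 1) ^ 2 * (2 * eps n) ≤ 4 * (((n : ℝ) + 1) ^ 7 * (7 / 8) ^ (n / 70)) := by
    unfold eps
    have e1 : (n : ℝ) ^ 5 ≤ ((n : ℝ) + 1) ^ 5 := pow_le_pow_left₀ (by positivity) (by linarith) 5
    calc ((n : ℝ) + 1) ^ 2 * (2 * (2 * (n : ℝ) ^ 5 * (7 / 8) ^ (n / 70)))
        = 4 * ((((n : ℝ) + 1) ^ 2 * (n : ℝ) ^ 5) * (7 / 8) ^ (n / 70)) := by ring
      _ ≤ 4 * ((((n : ℝ) + 1) ^ 2 * ((n : ℝ) + 1) ^ 5) * (7 / 8) ^ (n / 70)) := by
          apply mul_le_mul_of_nonneg_left _ (by norm_num)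
          apply mul_le_mul_of_nonneg_right _ (by positivity)
          exact mul_le_mul_of_nonneg_left e1 (by positivity)
      _ = _ := by ring
  have h7 : ((n : ℝ) + 1) ^ 2 * (2 * del n) ≤
      18 * (((n : ℝ) + 1) ^ 29 * (49 / 50) ^ (n / 2)) := by
    unfold del
    have e1 : (n : ℝ) ^ 27 ≤ ((n : ℝ) + 1) ^ 27 :=
      pow_le_pow_left₀ (by positivity) (by linarith) 27
    calc ((n : ℝ) + 1) ^ 2 * (2 * (9 * ((n : ℝ) ^ 27 * (49 / 50) ^ (n / 2))))
        = 18 * ((((n : ℝ) + 1) ^ 2 * (n : ℝ) ^ 27) * (49 / 50) ^ (n / 2)) := by ring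
      _ ≤ 18 * ((((n : ℝ) + 1) ^ 2 * ((n : ℝ) + 1) ^ 27) * (49 / 50) ^ (n / 2)) := by
          apply mul_le_mul_of_nonneg_left _ (by norm_num)
          apply mul_le_mul_of_nonneg_right _ (by positivity)
          exact mul_le_mul_of_nonneg_left e1 (by positivity)
      _ = _ := by ring
  calc ((n : ℝ) + 1) ^ 2 * (((n : ℝ) + 1) ^ n + (2 * (eps n + del n) * TI n + V))
      = (((n : ℝ) + 1) ^ 2 * (2 * eps n) + ((n : ℝ) + 1) ^ 2 * (2 * del n)) * TI n +
        ((n : ℝ) + 1) ^ 2 * (((n : ℝ) + 1) ^ n + V) := by ring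
    _ ≤ (4 * (((n : ℝ) + 1) ^ 7 * (7 / 8) ^ (n / 70)) +
        18 * (((n : ℝ) + 1) ^ 29 * (49 / 50) ^ (n / 2))) * TI n + Y * TI n := by
        apply add_le_add _ h5
        apply mul_le_mul_of_nonneg_right _ hTI.le
        exact add_le_add h6 h7
    _ = _ := by ring

theorem iso_tendsto : Tendsto (fun n : ℕ => UI n / TI n) atTop (nhds 0) := by
  have t1 := (tend (7 / 8) (by norm_num) (by norm_num) 70 (by norm_num) 7).const_mul 4
  have t1' := (tend (49 / 50) (by norm_num) (by norm_num) 2 (by norm_num) 29).const_mul 18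
  have t2 := (tend (1 / 2) (by norm_num) (by norm_num) 10 (by norm_num) 78).const_mul (2 ^ 160)
  have t3 := (t1.add t1').add t2
  rw [mul_zero, mul_zero, mul_zero, add_zero, add_zero] at t3
  have c1 := (tend (7 / 8) (by norm_num) (by norm_num) 70 (by norm_num) 4).eventually
    (eventually_le_nhds (show (0 : ℝ) < 1 by norm_num))
  have c2 := ((tend (7 / 8) (by norm_num) (by norm_num) 70 (by norm_num) 5).const_mul 2)
  rw [mul_zero] at c2
  have c2' := c2.eventually (eventually_le_nhds (show (0 : ℝ) < 1 / 2 by norm_num))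
  rw [mul_zero] at t2
  have c3 := t2.eventually (eventually_le_nhds (show (0 : ℝ) < 1 by norm_num))
  have c4 := (tend (1 / 4) (by norm_num) (by norm_num) 7 (by norm_num) 5).eventually
    (eventually_le_nhds (show (0 : ℝ) < 1 by norm_num))
  have c5 := (tend (49 / 50) (by norm_num) (by norm_num) 2 (by norm_num) 27).eventually
    (eventually_le_nhds (show (0 : ℝ) < 1 by norm_num))
  refine squeeze_zero' ?_ ?_ t3
  · filter_upwards with n
    unfold UI TI
    positivity
  · filter_upwards [c1, c2', c3, c4, c5, eventually_ge_atTop 70] with n h1 h2 h3 h4 h5 h6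
    apply ratio_iso h6
    · refine le_trans ?_ h1
      apply mul_le_mul_of_nonneg_right _ (by positivity)
      exact pow_le_pow_left₀ (by positivity) (by linarith) 4
    · refine le_trans ?_ h2
      unfold eps
      rw [mul_assoc]
      apply mul_le_mul_of_nonneg_left _ (by norm_num)
      apply mul_le_mul_of_nonneg_right _ (by positivity)
      exact pow_le_pow_left₀ (by positivity) (by linarith) 5
    · rw [mul_assoc]
      exact h3
    · rw [one_div, inv_pow, ← div_eq_mul_inv, div_le_one (by positivity)] at h4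
      refine le_trans ?_ h4
      exact pow_le_pow_left₀ (by positivity) (by linarith) 5
    · refine le_trans ?_ h5
      apply mul_le_mul_of_nonneg_right _ (by positivity)
      exact pow_le_pow_left₀ (by positivity) (by linarith) 27

end Pool.Agent.H130R2.TU
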