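import Pool.Agent.H130R2.TU.Iso

set_option autoImplicit false
set_option linter.unusedSectionVars false

namespace Pool.Agent.H130R2.TU

open Finset Pool.Agent.Helper46.T

variable {n s : ℕ}

open Classical in
/-- Injective atypical families. -/
noncomputable def NI (n s : ℕ) : Finset (Fin s → Finset (Fin n)) :=
  (NT n s).filter (fun A => Function.Injective A)

open Classical in
/-- Families in `AL` fixed by `(σ, π)`. -/
noncomputable def Fx (n s : ℕ) (g : Equiv.Perm (Fin n) × Equiv.Perm (Fin s)) :
    Finset (Fin s → Finset (Fin n)) :=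
  (AL n s).filter (fun A => act g A = A)

open Classical in
theorem orbit_count [Nonempty (Fin n)] (j : ℕ) (C : Finset (Quotient (isoS n)))
    (hC : ∀ c ∈ C, ∃ (M : Matroid (Fin n)) (A : Fin s → Finset (Fin n)), cls M = c ∧
      A ∈ NI n s ∧ HasB M (Lift^[j] (bas A))) :
    C.card * (n.factorial * s.factorial) ≤
      ∑ g : Equiv.Perm (Fin n) × Equiv.Perm (Fin s),
        ((NI n s).filter (fun A => act g A = A)).card := by
  have h1 : ∀ c : Quotient (isoS n), ∃ (M : Matroid (Fin n)) (A : Fin s → Finset (Fin n)),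
      c ∈ C → (cls M = c ∧ A ∈ NI n s ∧ HasB M (Lift^[j] (bas A))) := by
    intro c
    by_cases hc : c ∈ C
    · obtain ⟨M, A, h⟩ := hC c hc
      exact ⟨M, A, fun _ => h⟩
    · exact ⟨Matroid.emptyOn _, fun _ => ∅, fun h => absurd h hc⟩
  choose fM fA hf using h1
  have hG : (Finset.univ : Finset (Equiv.Perm (Fin n) × Equiv.Perm (Fin s))).card =
      n.factorial * s.factorial := by
    rw [card_univ, Fintype.card_prod, Fintype.card_perm, Fintype.card_perm, Fintype.card_fin,
      Fintype.card_fin]
  rw [← hG, ← card_product]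
  have hmap : ∀ p ∈ C ×ˢ (Finset.univ : Finset (Equiv.Perm (Fin n) × Equiv.Perm (Fin s))),
      act p.2 (fA p.1) ∈ NI n s := by
    rintro ⟨c, g⟩ hp
    rw [mem_product] at hp
    obtain ⟨-, hA, -⟩ := hf c hp.1
    unfold NI at *
    rw [mem_filter] at *
    exact ⟨act_mem_NT g _ hA.1, act_inj g _ hA.2⟩
  rw [card_eq_sum_card_fiberwise (f := fun p => act p.2 (fA p.1)) (t := NI n s)
    (fun p hp => hmap p hp)]
  have hfib : ∀ A ∈ NI n s,
      ((C ×ˢ (Finset.univ : Finset (Equiv.Perm (Fin n) × Equiv.Perm (Fin s)))).filter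
        (fun p => act p.2 (fA p.1) = A)).card ≤
      ((Finset.univ : Finset (Equiv.Perm (Fin n) × Equiv.Perm (Fin s))).filter
        (fun g => act g A = A)).card := by
    intro A _
    set Fb := (C ×ˢ (Finset.univ : Finset (Equiv.Perm (Fin n) × Equiv.Perm (Fin s)))).filter
        (fun p => act p.2 (fA p.1) = A) with hFb
    rcases Fb.eq_empty_or_nonempty with h | ⟨⟨c0, g0⟩, hp0⟩
    · rw [h, card_empty]
      exact Nat.zero_le _
    · rw [hFb, mem_filter, mem_product] at hp0
      obtain ⟨⟨hc0, -⟩, hp0⟩ := hp0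
      simp only at hp0 hc0
      have hsame : ∀ p ∈ Fb, p.1 = c0 := by
        rintro ⟨c, g⟩ hp
        rw [hFb, mem_filter, mem_product] at hp
        obtain ⟨⟨hc, -⟩, hp⟩ := hp
        simp only at hp hc ⊢
        obtain ⟨hM, -, hB⟩ := hf c hc
        obtain ⟨hM0, -, hB0⟩ := hf c0 hc0
        rw [← hM, ← hM0, cls_eq]
        have e1 : fA c0 = act (g0⁻¹ * g) (fA c) := by
          rw [act_mul, hp, ← hp0, ← act_mul, inv_mul_cancel, act_one]
        rw [e1] at hB0
        exact iso_of_act _ _ j _ _ hB hB0
      apply card_le_card_of_injOn (fun p => p.2 * g0⁻¹)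
      · rintro ⟨c, g⟩ hp
        have hc := hsame _ hp
        simp only at hc
        subst hc
        rw [mem_coe, hFb, mem_filter] at hp
        rw [mem_coe, mem_filter]
        refine ⟨mem_univ _, ?_⟩
        simp only at hp ⊢
        conv_lhs => rw [← hp0]
        rw [← act_mul, inv_mul_cancel_right, hp.2]
      · intro p hp p' hp' h
        have e1 := hsame p hp
        have e2 := hsame p' hp'
        simp only at h
        have e3 := mul_right_cancel h
        exact Prod.ext (e1.trans e2.symm) e3
  refine (sum_le_sum hfib).trans (le_of_eq ?_)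
  simp only [card_filter]
  rw [sum_comm]

theorem act_one_fix (π : Equiv.Perm (Fin s)) (A : Fin s → Finset (Fin n))
    (hA : Function.Injective A) (h : act ((1 : Equiv.Perm (Fin n)), π) A = A) : π = 1 := by
  have h1 : ∀ i, π⁻¹ i = i := by
    intro i
    apply hA
    have h2 := congrFun h i
    have h3 : A (π⁻¹ i) = act ((1 : Equiv.Perm (Fin n)), π) A i := by
      ext x
      simp only [act, mem_map, Equiv.coe_toEmbedding, Equiv.Perm.one_apply]
      constructor
      · intro hx
        exact ⟨x, hx, rfl⟩
      · rintro ⟨a, ha, rfl⟩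
        exact ha
    rw [h3, h2]
  have h2 : π⁻¹ = 1 := Equiv.ext (fun i => h1 i)
  exact inv_eq_one.1 h2

open Classical in
theorem sum_fix : ∑ g : Equiv.Perm (Fin n) × Equiv.Perm (Fin s),
        ((NI n s).filter (fun A => act g A = A)).card ≤
    (NT n s).card + ∑ σ ∈ (Finset.univ : Finset (Equiv.Perm (Fin n))).erase 1,
      ∑ π : Equiv.Perm (Fin s), (Fx n s (σ, π)).card := by
  rw [← univ_product_univ, sum_product, ← sum_erase_add _ _ (mem_univ (1 : Equiv.Perm (Fin n))),
    add_comm]
  apply Nat.add_le_add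
  · rw [sum_eq_single (1 : Equiv.Perm (Fin s))]
    · refine (card_filter_le _ _).trans ?_
      unfold NI
      exact card_filter_le _ _
    · intro π _ hπ
      rw [card_eq_zero, filter_eq_empty_iff]
      intro A hA h
      unfold NI at hA
      rw [mem_filter] at hA
      exact hπ (act_one_fix π A hA.2 h)
    · intro h
      exact absurd (mem_univ _) h
  · apply sum_le_sum
    intro σ _
    apply sum_le_sum
    intro π _
    apply card_le_card
    intro A hA
    unfold NI NT at hA
    unfold Fx
    rw [mem_filter, mem_filter, mem_filter] at hA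
    rw [mem_filter]
    exact ⟨hA.1.1.1, hA.2⟩

end Pool.Agent.H130R2.TU
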