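import Pool.Agent.H130R2.TU.Fixp

set_option autoImplicit false
set_option linter.unusedSectionVars false

namespace Pool.Agent.H130R2.TU

open Finset Pool.Agent.Helper46.T

variable {n s : ℕ}

/-- Number of moved points. -/
def mv (σ : Equiv.Perm (Fin n)) : ℕ := (univ.filter (fun i => σ i ≠ i)).card

theorem one_add_pow (s : ℕ) (x : ℝ) (hx0 : 0 ≤ x) (hx : x * s ≤ 1) :
    (1 + x) ^ s ≤ 3 := by
  have h1 : 1 + x ≤ Real.exp x := by
    have := Real.add_one_le_exp x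
    linarith
  calc (1 + x) ^ s ≤ (Real.exp x) ^ s := pow_le_pow_left₀ (by linarith) h1 s
    _ = Real.exp (s * x) := by rw [← Real.exp_nat_mul]
    _ ≤ Real.exp 1 := by
        apply Real.exp_le_exp.2
        linarith
    _ ≤ 3 := by
        have := Real.exp_one_lt_d9
        linarith

theorem term_bound (hs0 : 0 < s) (hs : s ≤ n) (σ : Equiv.Perm (Fin n)) (w : ℝ) (hw0 : 0 < w)
    (hw : w * w = (FF n (n - s) : ℝ)) (hB : n ≤ 7 * (n - s)) (hA : 5 * (n - s) ≤ 2 * n)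
    (h4 : 4 ≤ n - s) (hn5 : (n : ℝ) ^ 5 ≤ 4 ^ (n - s)) (q : ℕ) (hq : 4 * q ≤ n - s)
    (hq2 : 3 * q < mv σ + 3) :
    (((inv (n - s) σ).card : ℝ) + s * w) ^ s ≤
      3 * ((16 / 17) ^ q) ^ s * (FF n (n - s) : ℝ) ^ s := by
  set m := n - s with hm
  set F : ℝ := (FF n m : ℝ) with hF
  set ρ : ℝ := (16 / 17) ^ q with hρ
  have hρ0 : 0 < ρ := by positivity
  have hF0 : 0 < F := by rw [← hw]; positivity
  have h1 : ((inv m σ).card : ℝ) ≤ ρ * F := by
    have h2 := inv_bound m σ hB q hq hq2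
    have h3 : (17 : ℝ) ^ q * ((inv m σ).card : ℝ) ≤ 16 ^ q * F := by
      rw [hF]
      exact_mod_cast h2
    rw [hρ, div_pow, div_mul_eq_mul_div, le_div_iff₀ (by positivity), mul_comm]
    exact h3
  have hn0 : (0 : ℝ) < n := by exact_mod_cast (by omega : 0 < n)
  have hs0' : (0 : ℝ) < s := by exact_mod_cast hs0
  have hsn : (s : ℝ) ≤ n := by exact_mod_cast hs
  -- the key comparison
  have h5 : (4 : ℝ) ^ m ≤ (ρ * w) ^ 2 * n := by
    have e1 : (5 : ℝ) ^ m ≤ n * F := by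
      have h6 := choose_lower n m h4 hA
      have h7 : 5 ^ m ≤ n * FF n m := by
        calc 5 ^ m ≤ n.choose m * m := h6
          _ ≤ FF n m * n := Nat.mul_le_mul (choose_le_FF n m m le_rfl) (by omega)
          _ = _ := mul_comm _ _
      rw [hF]
      exact_mod_cast h7
    have e2 : (16 / 17 : ℝ) ^ m ≤ ρ ^ 2 := by
      rw [hρ, ← pow_mul]
      exact pow_le_pow_of_le_one (by norm_num) (by norm_num) (by omega)
    calc (4 : ℝ) ^ m ≤ (16 / 17 * 5) ^ m := pow_le_pow_left₀ (by norm_num) (by norm_num) m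
      _ = (16 / 17) ^ m * 5 ^ m := mul_pow _ _ _
      _ ≤ ρ ^ 2 * (n * F) := mul_le_mul e2 e1 (by positivity) (by positivity)
      _ = (ρ * w) ^ 2 * n := by rw [← hw]; ring
  have h6 : (s : ℝ) ^ 2 ≤ ρ * w := by
    have e1 : (n : ℝ) ^ 4 * n ≤ (ρ * w) ^ 2 * n := by
      calc (n : ℝ) ^ 4 * n = (n : ℝ) ^ 5 := by ring
        _ ≤ 4 ^ m := hn5
        _ ≤ _ := h5
    have e2 : (n : ℝ) ^ 4 ≤ (ρ * w) ^ 2 := le_of_mul_le_mul_right e1 hn0
    have e3 : ((s : ℝ) ^ 2) ^ 2 ≤ (ρ * w) ^ 2 := by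
      calc ((s : ℝ) ^ 2) ^ 2 = (s : ℝ) ^ 4 := by ring
        _ ≤ (n : ℝ) ^ 4 := pow_le_pow_left₀ hs0'.le hsn 4
        _ ≤ _ := e2
    exact (pow_le_pow_iff_left₀ (by positivity) (by positivity) (by norm_num)).1 e3
  have h7 : ((inv m σ).card : ℝ) + s * w ≤ ρ * F * (1 + s / (ρ * w)) := by
    have e1 : ρ * F * (1 + s / (ρ * w)) = ρ * F + s * w := by
      rw [← hw]
      field_simp
    rw [e1]
    linarith
  calc (((inv m σ).card : ℝ) + s * w) ^ s ≤ (ρ * F * (1 + s / (ρ * w))) ^ s :=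
        pow_le_pow_left₀ (by positivity) h7 s
    _ = ρ ^ s * F ^ s * (1 + s / (ρ * w)) ^ s := by rw [mul_pow, mul_pow]
    _ ≤ ρ ^ s * F ^ s * 3 := by
        apply mul_le_mul_of_nonneg_left _ (by positivity)
        apply one_add_pow s _ (by positivity)
        rw [div_mul_eq_mul_div, div_le_one (by positivity)]
        nlinarith
    _ = _ := by ring

theorem term_bound2 (hs0 : 0 < s) (hs : s ≤ n) (σ : Equiv.Perm (Fin n)) (w : ℝ) (hw0 : 0 < w)
    (hw : w * w = (FF n (n - s) : ℝ)) (hB : n ≤ 7 * (n - s)) (hA : 5 * (n - s) ≤ 2 * n)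
    (h4 : 4 ≤ n - s) (hn5 : (n : ℝ) ^ 5 ≤ 4 ^ (n - s)) :
    (((inv (n - s) σ).card : ℝ) + s * w) ^ s ≤
      3 * (((49 / 50) ^ s) ^ mv σ + ((49 / 50) ^ s) ^ (3 * ((n - s) / 4))) *
        (FF n (n - s) : ℝ) ^ s := by
  set y : ℝ := (49 / 50) ^ s with hy
  have hy0 : 0 < y := by positivity
  have hy1 : y ≤ 1 := pow_le_one₀ (by norm_num) (by norm_num)
  set q := min ((mv σ + 2) / 3) ((n - s) / 4) with hq
  have h1 := term_bound hs0 hs σ w hw0 hw hB hA h4 hn5 q (by omega) (by omega)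
  refine h1.trans ?_
  apply mul_le_mul_of_nonneg_right _ (by positivity)
  apply mul_le_mul_of_nonneg_left _ (by norm_num)
  have h2 : (((16 : ℝ) / 17) ^ q) ^ s ≤ y ^ (3 * q) := by
    rw [hy, ← pow_mul, ← pow_mul]
    calc ((16 : ℝ) / 17) ^ (q * s) ≤ ((49 / 50) ^ 3) ^ (q * s) :=
          pow_le_pow_left₀ (by norm_num) (by norm_num) _
      _ = _ := by rw [← pow_mul]; ring_nf
  refine h2.trans ?_
  rcases Nat.le_total ((mv σ + 2) / 3) ((n - s) / 4) with h | h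
  · have h3 : q = (mv σ + 2) / 3 := min_eq_left h
    have h4 : y ^ (3 * q) ≤ y ^ mv σ := pow_le_pow_of_le_one hy0.le hy1 (by omega)
    have h5 : 0 ≤ y ^ (3 * ((n - s) / 4)) := by positivity
    linarith
  · have h3 : q = (n - s) / 4 := min_eq_right h
    rw [h3]
    have h5 : 0 ≤ y ^ mv σ := by positivity
    linarith

theorem sum_mv (y : ℝ) (hy : 0 ≤ y) (hny : (n : ℝ) ^ 2 * y ≤ 1) :
    ∑ σ ∈ (univ : Finset (Equiv.Perm (Fin n))).erase 1, y ^ mv σ ≤ 2 * ((n : ℝ) ^ 2 * y) := by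
  classical
  have h1 : ∀ σ : Equiv.Perm (Fin n), y ^ mv σ = ∏ i, (if σ i = i then 1 else y) := by
    intro σ
    rw [prod_ite, prod_const_one, one_mul, prod_const]
    rfl
  have h2 := perm_sum n 1 y (by norm_num) hy
  have h3 : ∑ σ : Equiv.Perm (Fin n), y ^ mv σ ≤ (1 + n * y) ^ n := by
    rw [sum_congr rfl (fun σ _ => h1 σ)]
    exact h2
  have h4 : y ^ mv (1 : Equiv.Perm (Fin n)) = 1 := by
    have : mv (1 : Equiv.Perm (Fin n)) = 0 := by
      unfold mv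
      simp
    rw [this, pow_zero]
  rw [← sum_erase_add _ _ (mem_univ (1 : Equiv.Perm (Fin n))), h4] at h3
  have h5 : (1 + n * y) ^ n ≤ Real.exp ((n : ℝ) ^ 2 * y) := by
    have e1 : 1 + n * y ≤ Real.exp (n * y) := by
      have := Real.add_one_le_exp (n * y)
      linarith
    calc (1 + n * y) ^ n ≤ (Real.exp (n * y)) ^ n :=
          pow_le_pow_left₀ (by positivity) e1 n
      _ = Real.exp (n * (n * y)) := by rw [← Real.exp_nat_mul]
      _ = _ := by ring_nf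
  have h6 : Real.exp ((n : ℝ) ^ 2 * y) - 1 ≤ 2 * ((n : ℝ) ^ 2 * y) := by
    have e0 : 0 ≤ (n : ℝ) ^ 2 * y := by positivity
    have e1 := Real.abs_exp_sub_one_le (x := (n : ℝ) ^ 2 * y) (by rw [abs_of_nonneg e0]; exact hny)
    rw [abs_of_nonneg e0] at e1
    exact (le_abs_self _).trans e1
  linarith

/-- Rate. -/
noncomputable def del (n : ℕ) : ℝ := 9 * ((n : ℝ) ^ 27 * (49 / 50) ^ (n / 2))

theorem sum_sigma (hs : s ≤ n) (hB : n ≤ 7 * (n - s)) (hA : 5 * (n - s) ≤ 2 * n)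
    (hn : 70 ≤ n) (hn5 : (n : ℝ) ^ 5 ≤ 4 ^ (n / 7))
    (hd : (n : ℝ) ^ 27 * (49 / 50) ^ (n / 2) ≤ 1) :
    ∑ σ ∈ (univ : Finset (Equiv.Perm (Fin n))).erase 1,
      ∑ π : Equiv.Perm (Fin s), ((Fx n s (σ, π)).card : ℝ) ≤
      del n * (FF n (n - s) : ℝ) ^ s := by
  set F : ℝ := (FF n (n - s) : ℝ) with hF
  have hF0 : 0 < F := by
    rw [hF]
    exact_mod_cast FF_pos n (n - s)
  obtain ⟨w, hw0, hw⟩ : ∃ w : ℝ, 0 < w ∧ w * w = F :=
    ⟨Real.sqrt F, Real.sqrt_pos.2 hF0, Real.mul_self_sqrt hF0.le⟩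
  have hn1 : (1 : ℝ) ≤ n := by exact_mod_cast (by omega : 1 ≤ n)
  have hn5' : (n : ℝ) ^ 5 ≤ 4 ^ (n - s) :=
    hn5.trans (pow_le_pow_right₀ (by norm_num) (by omega))
  set y : ℝ := (49 / 50) ^ s with hy
  have hy0 : 0 < y := by positivity
  set z : ℝ := (49 / 50) ^ (n / 2) with hz
  have hz0 : 0 < z := by positivity
  have hyz : y ≤ z := pow_le_pow_of_le_one (by norm_num) (by norm_num) (by omega)
  have h1 : ∑ σ ∈ (univ : Finset (Equiv.Perm (Fin n))).erase 1,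
      ∑ π : Equiv.Perm (Fin s), ((Fx n s (σ, π)).card : ℝ) ≤
      ∑ σ ∈ (univ : Finset (Equiv.Perm (Fin n))).erase 1,
        3 * (y ^ mv σ + y ^ (3 * ((n - s) / 4))) * F ^ s := by
    apply sum_le_sum
    intro σ _
    exact (sum_fx hs σ w hw0.le hw).trans
      (term_bound2 (by omega) hs σ w hw0 hw hB hA (by omega) hn5')
  refine h1.trans ?_
  rw [← sum_mul]
  apply mul_le_mul_of_nonneg_right _ (by positivity)
  rw [← mul_sum, sum_add_distrib, sum_const, nsmul_eq_mul]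
  have hny : (n : ℝ) ^ 2 * y ≤ (n : ℝ) ^ 27 * z := by
    apply mul_le_mul _ hyz hy0.le (by positivity)
    exact pow_le_pow_right₀ hn1 (by norm_num)
  have h2 := sum_mv (n := n) y hy0.le (hny.trans hd)
  have h3 : (((univ : Finset (Equiv.Perm (Fin n))).erase 1).card : ℝ) *
      y ^ (3 * ((n - s) / 4)) ≤ (n : ℝ) ^ 27 * z := by
    have e1 : (((univ : Finset (Equiv.Perm (Fin n))).erase 1).card : ℝ) ≤ (n : ℝ) ^ n := by
      have e2 : ((univ : Finset (Equiv.Perm (Fin n))).erase 1).card ≤ n ^ n := by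
        refine (card_erase_le).trans ?_
        rw [card_univ, Fintype.card_perm, Fintype.card_fin]
        exact Nat.factorial_le_pow n
      exact_mod_cast e2
    set p := n / 14 with hp
    have e3 : (n : ℝ) ^ n ≤ ((n : ℝ) ^ 27) ^ p := by
      rw [← pow_mul]
      exact pow_le_pow_right₀ hn1 (by omega)
    have e4 : y ^ (3 * ((n - s) / 4)) ≤ z ^ p := by
      calc y ^ (3 * ((n - s) / 4)) ≤ z ^ (3 * ((n - s) / 4)) :=
            pow_le_pow_left₀ hy0.le hyz _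
        _ ≤ z ^ p := by
            apply pow_le_pow_of_le_one hz0.le _ (by omega)
            exact pow_le_one₀ (by norm_num) (by norm_num)
    calc (((univ : Finset (Equiv.Perm (Fin n))).erase 1).card : ℝ) *
      y ^ (3 * ((n - s) / 4)) ≤ ((n : ℝ) ^ 27) ^ p * z ^ p :=
          mul_le_mul (e1.trans e3) e4 (by positivity) (by positivity)
      _ = ((n : ℝ) ^ 27 * z) ^ p := by rw [mul_pow]
      _ ≤ (n : ℝ) ^ 27 * z := pow_le_of_le_one (by positivity) hd (by omega)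
  unfold del
  rw [← hz]
  linarith

end Pool.Agent.H130R2.TU
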